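import Pool.Agent.XE31.SI

/-!
# The section conjecture for 100% of the diagonal curves, over many extensions at once

Let `k` be any field finitely generated over `ℚ`, that is, the fraction field of a domain `R` of
characteristic zero that is finitely generated as a ring.  Let `m ≥ 3`.  We consider the diagonal curves
(generalised Fermat curves)

  `X : a x^n₁ + b y^n₂ + c = 0`,  `(a, b, c) ∈ R³`,  `n₁` and `n₂` divisible by `m`,

for instance the smooth plane curves `a xᵐ + b yᵐ + c zᵐ = 0`.  We prove that for all `(a, b, c)` outside
a set of density zero, for ALL `n₁`, `n₂` divisible by `m`, all divisors `D` of `m` such that `D` is odd or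
`2`, or `2 D ∣ m`, and ALL finite extensions `L` of `k` whose degree is not divisible by `D`, the curve
`X_L` has no point over `L`, and its fundamental group has no section over `G_L`, also when any set of
closed points of the curve is removed.  So `X_L`, and all smooth curves over `L` that dominate it,
satisfy the section conjecture.  In other words, for 100% of the triples the degrees of all finite
extensions `L` of `k` over which one of these curves has points or sections are divisible by `m`, if `4`
does not divide `m`, and by `m/2`, if `4` divides `m`; and `m ≥ 3` implies that `L ≠ k`.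

The diagonal curves form a thin subset of the families where the section conjecture is known for 100%
of the members, for instance of the curves `a yⁿ = f(x)` where all coefficients of `f` vary
(`Pool.Agent.Results.MP_e66f84_ag.SuperellipticFamilies`).  For a fixed polynomial `f = b xᵐ + c` the
twists `a yⁿ = f(x)` for 100% of the numbers `a`, over `k` itself, are treated in
`Pool.Agent.Results.MP_e66f84_ag.SuperellipticTwists`, where the exceptional set depends on `f`.

The set of the exceptional triples has density zero in a strong sense: for every `ε > 0` there is an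
ideal `I` of `R` of finite index such that the exceptional triples lie in at most `ε #(R/I)³` residue
classes modulo `I`.

The fundamental group is described through valuations.  Let `U` be a smooth geometrically connected
curve over `k` with function field `F`, let `Ω` be an algebraic closure of `F`, and let `F_U` be the
maximal extension of `F` inside `Ω` which is unramified over the closed points of `U`, that is, over
their local rings, which are valuation rings of `F`.  Then `π₁(U) = Gal(F_U/F)`, and the map
`π₁(U) → G_k` is the restriction of automorphisms to the algebraic closure of `k` in `Ω`.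

Proof.  The curve dominates the one for `n₁ = n₂ = m`.  There are a number field `K` and a homomorphism
`P : R → K` such that for almost all primes `v` of `K` there is an embedding `ψ : k → K_v` with
`ψ(r) ≡ P(r)` modulo `v²` for all `r ∈ R`.  It induces a discrete valuation on `k` with finite residue
field.  Let `v` be such a prime, not dividing 2, with `N v ≡ 1` modulo `m`.  If the
`(N v - 1)/m`-th power of `-P(c)/P(b)` has order `m` modulo `v`, then `P(b) xᵐ + P(c)` is irreducible
modulo `v`: the Frobenius automorphism multiplies the roots by a primitive `m`-th root of unity.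
So `P(b) xᵐ + P(c)` is irreducible modulo `v` and `P(a)` has valuation one for a proportion of at least
`(1/4m) (1/N v - 1/(N v)²)` of all triples.  As the sum of the `1/N v` diverges, and as the image of `R` in
`K` contains a multiple of `O_K`, almost all triples satisfy this for some `v`.  Let `L` be a finite
extension of `k` and `l` a prime number with `v_l([L : k]) < v_l(D)`.  There is a discrete valuation
ring of `L` over the one of `k` with `v_l(e f) ≤ v_l([L : k])` for its ramification index `e` and its
residue degree `f`; put `ℓ = l^(1 + v_l(e))`, a divisor of `D`.  The valuation of `a` is `e`, which is not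
divisible by `ℓ`, and the irreducible factors of `b xᵐ + c` over the residue field of this ring have
degrees divisible by `gcd(2, ℓ) ℓ`, or, if `D = 2`, at least by `2`; so there are no sections, by the
Kummer theory of the functions `(x - θ)/(x - θ')`, where `θ, θ'` are roots of `b xᵐ + c`
(`Pool.Agent.TH377.LocG.local_U`; for `D = 2` the local theorem of
`Pool.Agent.Results.MP_2f3286_ag.QuadraticTwists`).
-/

open Polynomial

namespace Pool.Agent.Results.MP_e66f84_ag.DiagonalFamilies

universe u v w y

section definitions

variable (k : Type u) (F : Type v) (Ω : Type w) [Field k] [Field F] [Field Ω] [Algebra k F]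
  [Algebra F Ω] [Algebra k Ω]

/-- The inertia group of the valuation ring `W` of `Ω`, as a subgroup of `Gal(Ω/F)`: the
automorphisms of `Ω` over `F` that map `W` onto itself and act as the identity on its residue
field. -/
noncomputable def inertia (W : ValuationSubring Ω) : Subgroup (Ω ≃ₐ[F] Ω) :=
  (W.inertiaSubgroup F).map (W.decompositionSubgroup F).subtype

/-- `F_U`, for a set `U` of valuation rings of `F`: the elements of `Ω` fixed by the inertia groups
of all valuation rings `W` of `Ω` with `W ∩ F ∈ U`.  If `Ω` is an algebraic closure of a field `F`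
of characteristic zero, this is the maximal extension of `F` in `Ω` unramified over `U`. -/
noncomputable def unramified (U : Set (ValuationSubring F)) : IntermediateField F Ω :=
  ⨅ W : {W : ValuationSubring Ω // W.comap (algebraMap F Ω) ∈ U},
    IntermediateField.fixedField (inertia F Ω W.1)

/-- The map `τ : M → M` acts as `σ : K → K` on the elements that the fields `K` and `M` have in
common when they are regarded as subfields of `Ω` through `i` and `j`. -/
def ActsAs {K M Ω : Type*} [Field K] [Field M] [Field Ω] (i : K →+* Ω) (j : M →+* Ω) (σ : K → K)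
    (τ : M → M) : Prop :=
  ∀ c z, j z = i c → j (τ z) = i (σ c)

/-- Let `k ⊆ K ⊆ Ω` and `F ⊆ M ⊆ Ω` be fields.  A splitting of `Gal(M/F) → Gal(K/k)`: a continuous
homomorphism `s` from `Gal(K/k)` to `Gal(M/F)` such that `s(σ)` acts as `σ` on the elements of
`K ∩ M`. -/
structure Splitting (K M : Type*) [Field K] [Field M] [Algebra k K] [Algebra F M] [Algebra K Ω]
    [Algebra M Ω] where
  /-- the homomorphism `Gal(K/k) → Gal(M/F)` -/
  toHom : (K ≃ₐ[k] K) →* (M ≃ₐ[F] M)
  cont : Continuous toHom
  compat : ∀ σ : K ≃ₐ[k] K, ActsAs (algebraMap K Ω) (algebraMap M Ω) σ (toHom σ)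

/-- The sections of `π₁(U) = Gal(F_U/F) → G_k`: the continuous homomorphisms `s` from
`G_k = Gal(k̄/k)` to `Gal(F_U/F)`, where `k̄` is the algebraic closure of `k` in `Ω`, such that
`s(σ)` acts as `σ` on the elements of `k̄`. -/
def GaloisSection (U : Set (ValuationSubring F)) : Type w :=
  Splitting k F Ω (algebraicClosure k Ω) (unramified F Ω U)

end definitions

/-- The smooth projective curve with the affine equation `a x^n₁ + b y^n₂ + c = 0` has no point over
`k`: neither in the affine part nor at infinity, where the points correspond to the solutions of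
`a + b r^g = 0`, `g = gcd(n₁, n₂)` (`r` is the value of `y^(n₂/g)/x^(n₁/g)`). -/
def NoPoint {k : Type u} [Field k] (n₁ n₂ : ℕ) (a b c : k) : Prop :=
  (¬ ∃ x y : k, a * x ^ n₁ + b * y ^ n₂ + c = 0) ∧ ¬ ∃ r : k, a + b * r ^ Nat.gcd n₁ n₂ = 0

/-- Let `F` be any field over `k` that contains a point `(x, y)` of the curve `a x^n₁ + b y^n₂ + c = 0`,
for instance the function field of the curve, and let `Ω` be an algebraic closure of `F`.  Then for
every set `U` of valuation rings of `F` over `k` there is no section of `π₁(U) → G_k`.  If `F` is the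
function field of the curve, such `U` are given by the smooth projective curve and by all its open
subcurves. -/
def NoSection {k : Type u} [Field k] (n₁ n₂ : ℕ) (a b c : k) : Prop :=
  ∀ (F : Type v) (Ω : Type w) [Field F] [Field Ω] [Algebra k F] [Algebra F Ω] [Algebra k Ω]
    [IsScalarTower k F Ω] [IsAlgClosure F Ω] (x y : F) (U : Set (ValuationSubring F)),
    algebraMap k F a * x ^ n₁ + algebraMap k F b * y ^ n₂ + algebraMap k F c = 0 →
      (∀ O ∈ U, ∀ c : k, algebraMap k F c ∈ O) → IsEmpty (GaloisSection k F Ω U)

/-- For all finite extensions `L` of `k` whose degree is not divisible by `D`, the curve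
`a x^n₁ + b y^n₂ + c = 0` has no points over `L` and no sections over `G_L`. -/
def NothingOver {k : Type} [Field k] (D n₁ n₂ : ℕ) (a b c : k) : Prop :=
  ∀ (L : Type y) [Field L] [Algebra k L] [FiniteDimensional k L], ¬ D ∣ Module.finrank k L →
    NoPoint n₁ n₂ (algebraMap k L a) (algebraMap k L b) (algebraMap k L c) ∧
      NoSection.{y, v, w} n₁ n₂ (algebraMap k L a) (algebraMap k L b) (algebraMap k L c)

/-- The triples `t = (a, b, c)` of elements of `R` that do not have the following property:
`a, b, c ≠ 0`, and for all `n₁`, `n₂` divisible by `m` and all divisors `D` of `m` such that `D` is odd or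
`2`, or `2 D ∣ m`, the curve `a x^n₁ + b y^n₂ + c = 0` has no point and no section over all finite
extensions of `k` whose degree is not divisible by `D`. -/
def Exceptional (R : Type) [CommRing R] (k : Type) [Field k] [Algebra R k] (m : ℕ) :
    Set (Fin 3 → R) :=
  {t | ¬ (t 0 ≠ 0 ∧ t 1 ≠ 0 ∧ t 2 ≠ 0 ∧
    ∀ n₁ n₂ D : ℕ, m ∣ n₁ → m ∣ n₂ → D ∣ m → (Odd D ∨ D = 2 ∨ 2 * D ∣ m) →
      NothingOver.{v, w, y} D n₁ n₂ (algebraMap R k (t 0)) (algebraMap R k (t 1))
        (algebraMap R k (t 2)))}

/-- Density zero: for every `ε > 0` there is an ideal `I` of `R` of finite index such that `E` lies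
in at most `ε #(R/I)ᴺ` residue classes modulo `I`. -/
def DensityZero {R : Type} [CommRing R] {N : ℕ} (E : Set (Fin N → R)) : Prop :=
  ∀ ε : ℝ, 0 < ε → ∃ I : Ideal R, Finite (R ⧸ I) ∧
    (Set.ncard ((fun (t : Fin N → R) i => Ideal.Quotient.mk I (t i)) '' E) : ℝ) ≤
      ε * (Nat.card (R ⧸ I) : ℝ) ^ N

section proof

open Pool.Agent.XE31.SC

lemma toSec {k : Type u} {F : Type v} {Ω : Type w} [Field k] [Field F] [Field Ω] [Algebra k F]
    [Algebra F Ω] [Algebra k Ω] (U : Set (ValuationSubring F))
    (h : IsEmpty (Pool.Agent.W620.SC.GSection k F Ω U)) : IsEmpty (GaloisSection k F Ω U) :=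
  ⟨fun s => h.false ⟨s.toHom, s.cont, s.compat⟩⟩

lemma of_fineN {k : Type u} [Field k] (m n₁ n₂ : ℕ) (hm : m ≠ 0) (h1 : m ∣ n₁) (h2 : m ∣ n₂)
    (a b c : k) (ha : a ≠ 0) (hb : b ≠ 0) (f : k[X]) (hf : f = C b * X ^ m + C c)
    (h : FineN.{u, v, w} m (-a) f) :
    NoPoint n₁ n₂ a b c ∧ NoSection.{u, v, w} n₁ n₂ a b c := by
  obtain ⟨k1, k2, k3⟩ := h
  have hdeg : f.natDegree = m := by
    rw [hf, natDegree_add_C, natDegree_C_mul_X_pow _ _ hb]
  have hlc : f.leadingCoeff = b := by
    rw [leadingCoeff, hdeg, hf, coeff_add, coeff_C_mul, coeff_X_pow, if_pos rfl, coeff_C,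
      if_neg hm, mul_one, add_zero]
  obtain ⟨j1, rfl⟩ := h1
  obtain ⟨j2, rfl⟩ := h2
  refine ⟨⟨?_, ?_⟩, ?_⟩
  · rintro ⟨x, y, hxy⟩
    apply k2 (y ^ j2) (x ^ j1)
    rw [hf]
    simp only [eval_add, eval_mul, eval_C, eval_pow, eval_X]
    rw [← pow_mul, ← pow_mul, mul_comm j1, mul_comm j2]
    linear_combination -hxy
  · rintro ⟨r, hr⟩
    have hr0 : r ≠ 0 := by
      rintro rfl
      rcases Nat.eq_zero_or_pos (Nat.gcd (m * j1) (m * j2)) with h0 | h0
      · rw [h0, pow_zero, mul_one] at hr
        apply k3 1
        rw [hlc, one_pow, mul_one]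
        linear_combination -hr
      · rw [zero_pow h0.ne', mul_zero, add_zero] at hr
        exact ha hr
    obtain ⟨e, he⟩ := Nat.dvd_gcd (Dvd.intro j1 rfl : m ∣ m * j1) (Dvd.intro j2 rfl : m ∣ m * j2)
    apply k3 ((r ^ e)⁻¹)
    rw [hlc, hdeg, Nat.gcd_self, inv_pow, ← pow_mul, mul_comm e m, ← he]
    have h5 : r ^ Nat.gcd (m * j1) (m * j2) ≠ 0 := pow_ne_zero _ hr0
    field_simp
    linear_combination -hr
  · intro F Ω _ _ _ _ _ _ _ x y U hxy hU
    have hcl : IsAlgClosed Ω := IsAlgClosure.isAlgClosed F
    have halg : Algebra.IsAlgebraic F Ω := IsAlgClosure.isAlgebraic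
    refine toSec U (k1 F Ω U hU (y ^ j2) (x ^ j1) ?_)
    rw [hf]
    simp only [map_add, map_mul, map_pow, aeval_X, aeval_C, map_neg]
    rw [← pow_mul, ← pow_mul, mul_comm j1, mul_comm j2]
    linear_combination -hxy

end proof

/-- Let `R` be a domain of characteristic zero that is finitely generated as a ring, with fraction
field `k`; so `k` is any field finitely generated over `ℚ`.  Let `m ≥ 3`.  For all triples `(a, b, c)` of
elements of `R` outside a set of density zero, `a, b, c` are not zero, and for all `n₁`, `n₂` divisible by
`m`, all divisors `D` of `m` such that `D` is odd or `2`, or `2 D ∣ m`, and all finite extensions `L` of `k`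
whose degree is not divisible by `D`, the smooth projective curve with the affine equation
`a x^n₁ + b y^n₂ + c = 0` has no point over `L`, and the fundamental groups of its open subcurves over `L`
and of all smooth curves over `L` that dominate it have no sections over `G_L`. -/
theorem result (R : Type) [CommRing R] [IsDomain R] [CharZero R] [Algebra.FiniteType ℤ R]
    (k : Type) [Field k] [Algebra R k] [IsFractionRing R k] (m : ℕ) (hm : 3 ≤ m) :
    DensityZero (Exceptional.{v, w, y} R k m) := by
  intro ε hε
  have hcz : CharZero k := charZero_of_injective_algebraMap (IsFractionRing.injective R k)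
  obtain ⟨I, hI, hle⟩ := Pool.Agent.XE31.SC.dens_diag (R := R) (k := k) m (by omega) ε hε
  refine ⟨I, hI, le_trans ?_ hle⟩
  have hsub : (Exceptional.{v, w, y} R k m : Set (Fin 3 → R)) ⊆
      {c : Fin 3 → R | ¬ Pool.Agent.XE31.SC.DiagGood k m c} := by
    intro t ht hgood
    obtain ⟨h1, h2, ⟨Z⟩⟩ := hgood
    apply ht
    have h0 : algebraMap R k (t 0) ≠ 0 := neg_ne_zero.1 Z.ne_zero
    have hne : ∀ i, algebraMap R k (t i) ≠ 0 → t i ≠ 0 := by
      intro i hi h
      rw [h, map_zero] at hi
      exact hi rfl
    have hdeg : (C (algebraMap R k (t 1)) * X ^ m + C (algebraMap R k (t 2)) : k[X]).natDegree =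
        m := by
      rw [natDegree_add_C, natDegree_C_mul_X_pow _ _ h1]
    refine ⟨hne 0 h0, hne 1 h1, hne 2 h2, ?_⟩
    intro n₁ n₂ D hn₁ hn₂ hDm hD L _ _ _ hL
    have hinj : Function.Injective (algebraMap k L) := (algebraMap k L).injective
    refine of_fineN m n₁ n₂ (by omega) hn₁ hn₂ _ _ _ ((_root_.map_ne_zero _).2 h0)
      ((_root_.map_ne_zero _).2 h1)
      ((C (algebraMap R k (t 1)) * X ^ m + C (algebraMap R k (t 2))).map (algebraMap k L)) ?_ ?_
    · rw [Polynomial.map_add, Polynomial.map_mul, Polynomial.map_pow, map_X, map_C, map_C]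
    · have h5 := Z.fineN (hdeg.symm ▸ hm) L D m hDm (by
        rw [hdeg]
        rcases hD with h | h | h
        · exact Or.inl ⟨hDm, Or.inl h⟩
        · exact Or.inl ⟨hDm, Or.inr h⟩
        · exact Or.inr h) hL
      rwa [map_neg] at h5
  exact_mod_cast Set.ncard_le_ncard (Set.image_mono hsub) (Set.toFinite _)

end Pool.Agent.Results.MP_e66f84_ag.DiagonalFamilies
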