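import Pool.Agent.XE31.SN

/-!
# Sections for 100% of the members of every family `a yⁿ = G(t₁, …, t_r, x) + c`

Let `k` be any field finitely generated over `ℚ`, that is, the fraction field of a domain `R` of
characteristic zero that is finitely generated as a ring.  Let `G ∈ R[t₁, …, t_r][x]` be ANY polynomial
whose degree `d` in `x` is at least 3, `r ≥ 0`.  We consider the family of the superelliptic curves

  `a yⁿ = G(t₁, …, t_r, x) + c`,  `(a, c, t₁, …, t_r) ∈ R^(r+2)`,

over `k`.  We prove that for all `(a, c, t₁, …, t_r)` outside a set of density zero, for all `n ≥ 1` which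
are not coprime to `d`, the curve has no point over `k`, and its fundamental group has no section, also
when any set of closed points of the curve is removed.  So these curves, and all smooth curves over `k`
that dominate one of them, satisfy the section conjecture.  (If `n` is coprime to `d`, then there is a
rational point at infinity.)  Moreover, for all prime numbers `ℓ` that divide `d`, let `C` be the curve
`a y^ℓ = G(t, x) + c`, with function field `K`, and let `M` be the maximal pro-`ℓ` extension of `k̄ K`
that is unramified over `C`, so that `Gal(M/K)` is the geometrically pro-`ℓ` fundamental group of `C`.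
Already `Gal(M/K) → G_k` has no section, for the same `(a, c, t₁, …, t_r)`.

For `r = 0` this is a theorem about the curves `a yⁿ = f(x) + c` for an arbitrary fixed polynomial `f`,
for instance `f = x^d`, or `f` with the Galois group of `f(x) + c` over `k(c)` as small as possible.
Other examples are the families with a given set of monomials, as the trinomials
`a yⁿ = t₁ x^d + t₂ x^j + c`.  In `Pool.Agent.Results.MP_e66f84_ag.SuperellipticTwists` the polynomial
`f(x) + c` is fixed, and it is assumed that its Galois group has an element without fixed points; in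
`Pool.Agent.Results.MP_e66f84_ag.SuperellipticFamilies` all coefficients vary.

The set of the exceptional vectors has density zero in a strong sense: for every `ε > 0` there is an
ideal `I` of `R` of finite index such that the exceptional vectors lie in at most `ε #(R/I)^(r+2)`
residue classes modulo `I`.

The fundamental group is described through valuations.  Let `U` be a smooth geometrically connected
curve over `k` with function field `F`, let `Ω` be an algebraic closure of `F`, and let `F_U` be the
maximal extension of `F` inside `Ω` which is unramified over the closed points of `U`, that is, over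
their local rings, which are valuation rings of `F`.  Then `π₁(U) = Gal(F_U/F)`, and the map
`π₁(U) → G_k` is the restriction of automorphisms to the algebraic closure of `k` in `Ω`.

Proof.  There are a number field `K` and a homomorphism `P : R → K` such that for almost all primes `v`
of `K` there is an embedding `ψ : k → K_v` with `ψ(r) ≡ P(r)` modulo `v²` for all `r ∈ R`.  It induces a
discrete valuation on `k` with finite residue field.  If `P(a)` has valuation one at `v` and the
reduction of `G(t, x) + c` modulo `v` is separable of degree `d` without roots, then there are no points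
and no sections by the local theorem of `Pool.Agent.Results.MP_e66f84_ag.SuperellipticTwists`.  To show
that almost all vectors satisfy this for some `v` we need that for a positive proportion of the `c` modulo
`v`, which does not depend on `v`, the number `-c` is not a value of a given polynomial `f` of degree `d`
over the residue field `κ = 𝔽_q`.  Choose `v` with `q ≡ 1` modulo `d`.  Let `N_c` be the number of the
solutions of `f(x) = c`.  For polynomials `p` of degree less than `(q - 1)/d` the sum of the `p(f(x))` over
`x ∈ κ` is zero, and for the degree `(q - 1)/d` it is not, since `p(f(x))` has the degree `q - 1`.  The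
sums of the `p(c)` are zero in both cases.  So the sum of the `(N_c - 1) p(c)` is zero if
`deg p < (q - 1)/d`, and not zero if `deg p = (q - 1)/d`, and therefore `N_c ≠ 1` for more than
`(q - 1)/d` numbers `c`: otherwise let `p` be a multiple of the product of the `x - c`.  As the sum of the
`N_c - 1` is zero, at least half of these `c` have `N_c = 0`.  For at most `d - 1` of the `c` the
polynomial `f + c` is not separable.
-/

open Polynomial

namespace Pool.Agent.Results.MP_e66f84_ag.PolynomialFamilies

section definitions

variable (ℓ : ℕ) (k F Ω : Type) [Field k] [Field F] [Field Ω] [Algebra k F] [Algebra F Ω]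
  [Algebra k Ω]

/-- The inertia group of the valuation ring `W` of `Ω`, as a subgroup of `Gal(Ω/F)`: the
automorphisms of `Ω` over `F` that map `W` onto itself and act as the identity on its residue
field. -/
noncomputable def inertia (W : ValuationSubring Ω) : Subgroup (Ω ≃ₐ[F] Ω) :=
  (W.inertiaSubgroup F).map (W.decompositionSubgroup F).subtype

/-- `F_U`, for a set `U` of valuation rings of `F`: the elements of `Ω` fixed by the inertia groups
of all valuation rings `W` of `Ω` with `W ∩ F ∈ U`.  If `Ω` is an algebraic closure of a field `F`
of characteristic zero, this is the maximal extension of `F` in `Ω` unramified over `U`. -/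
noncomputable def unramified (U : Set (ValuationSubring F)) : IntermediateField F Ω :=
  ⨅ W : {W : ValuationSubring Ω // W.comap (algebraMap F Ω) ∈ U},
    IntermediateField.fixedField (inertia F Ω W.1)

/-- `k̄ F`, the compositum of `F` and of the algebraic closure of `k` in `Ω`. -/
noncomputable def geomField : IntermediateField F Ω :=
  IntermediateField.adjoin F (algebraicClosure k Ω : Set Ω)

/-- The algebraic extension `L` of `K` in `Ω` is unramified at all valuation rings of `Ω` that
contain `k`: every nonzero element of `L` has the same valuation as an element of `K`.  (If `K` is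
a function field of one variable over the algebraic closure of `k` and `k` has characteristic zero,
then this says that `L/K` is unramified over all points of the smooth projective curve.) -/
def Unramified {k K Ω : Type} [Field k] [Field K] [Field Ω] [Algebra k Ω] [Algebra K Ω]
    (L : IntermediateField K Ω) : Prop :=
  ∀ W : ValuationSubring Ω, (∀ c : k, algebraMap k Ω c ∈ W) → ∀ z ∈ L, z ≠ 0 →
    ∃ t : K, t ≠ 0 ∧ z / algebraMap K Ω t ∈ W ∧ (z / algebraMap K Ω t)⁻¹ ∈ W

/-- `L/K` is a finite Galois extension whose degree is a power of `ℓ`. -/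
def FiniteProEll (ℓ : ℕ) {K Ω : Type} [Field K] [Field Ω] [Algebra K Ω]
    (L : IntermediateField K Ω) : Prop :=
  FiniteDimensional K L ∧ IsGalois K L ∧ ∃ m : ℕ, Module.finrank K L = ℓ ^ m

/-- The maximal unramified pro-`ℓ` extension of `K` in `Ω`: the compositum of the finite Galois
extensions of `K` whose degree is a power of `ℓ` and which are unramified. -/
noncomputable def maxProEll (ℓ : ℕ) (k K Ω : Type) [Field k] [Field K] [Field Ω] [Algebra k Ω]
    [Algebra K Ω] : IntermediateField K Ω :=
  ⨆ L : {L : IntermediateField K Ω // FiniteProEll ℓ L ∧ Unramified (k := k) L}, L.1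

/-- `M`, the maximal unramified pro-`ℓ` extension of `k̄ F` in `Ω`, as an extension of `F`. -/
noncomputable def proEllField : IntermediateField F Ω :=
  (maxProEll ℓ k (geomField k F Ω) Ω).restrictScalars F

/-- The map `τ : M → M` acts as `σ : K → K` on the elements that the fields `K` and `M` have in
common when they are regarded as subfields of `Ω` through `i` and `j`. -/
def ActsAs {K M Ω : Type} [Field K] [Field M] [Field Ω] (i : K →+* Ω) (j : M →+* Ω) (σ : K → K)
    (τ : M → M) : Prop :=
  ∀ c z, j z = i c → j (τ z) = i (σ c)

/-- Let `k ⊆ K ⊆ Ω` and `F ⊆ N ⊆ Ω` be fields.  A splitting of `Gal(N/F) → Gal(K/k)`: a continuous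
homomorphism `s` from `Gal(K/k)` to `Gal(N/F)` such that `s(σ)` acts as `σ` on the elements of
`K ∩ N`. -/
structure Splitting (K N : Type) [Field K] [Field N] [Algebra k K] [Algebra F N] [Algebra K Ω]
    [Algebra N Ω] where
  /-- the homomorphism `Gal(K/k) → Gal(N/F)` -/
  toHom : (K ≃ₐ[k] K) →* (N ≃ₐ[F] N)
  cont : Continuous toHom
  compat : ∀ σ : K ≃ₐ[k] K, ActsAs (algebraMap K Ω) (algebraMap N Ω) σ (toHom σ)

/-- There are no sections of `Gal(N/F) → G_k`, where `G_k = Gal(k̄/k)` and `k̄` is the algebraic
closure of `k` in `Ω`.  For `N = F_U` these are the sections of `π₁(U) → G_k`. -/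
def NoSplitting (N : IntermediateField F Ω) : Prop :=
  IsEmpty (Splitting k F Ω (algebraicClosure k Ω) N)

end definitions

section curves

variable {k : Type} [Field k]

/-- The smooth projective curve with the affine equation `a yⁿ = f(x)` has no point over `k`:
neither in the affine part nor at infinity. -/
def NoPoint (n : ℕ) (a : k) (f : k[X]) : Prop :=
  (¬ ∃ x y : k, a * y ^ n = f.eval x) ∧
    ¬ ∃ r : k, a * r ^ Nat.gcd n f.natDegree = f.leadingCoeff

/-- Let `F` be any field over `k` that contains a point `(x, y)` of the curve `a yⁿ = f(x)`, for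
instance the function field of the curve, and let `Ω` be an algebraic closure of `F`.  Then for
every set `U` of valuation rings of `F` over `k` there is no section of `π₁(U) → G_k`.  If `F` is the
function field of the curve, such `U` are given by the smooth projective curve and by all its open
subcurves. -/
def NoSection (n : ℕ) (a : k) (f : k[X]) : Prop :=
  ∀ (F Ω : Type) [Field F] [Field Ω] [Algebra k F] [Algebra F Ω] [Algebra k Ω]
    [IsScalarTower k F Ω] [IsAlgClosure F Ω] (x y : F) (U : Set (ValuationSubring F)),
    algebraMap k F a * y ^ n = aeval x f → (∀ O ∈ U, ∀ c : k, algebraMap k F c ∈ O) →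
      NoSplitting k F Ω (unramified F Ω U)

/-- Let `F = k(x, y)` be the function field of the curve `a y^ℓ = f(x)`, let `Ω` be an algebraic
closure of `F`, and let `M` be the maximal unramified pro-`ℓ` extension of `k̄ F`.  For all
extensions `N ⊇ M` of `F` in `Ω`, in particular for `N = M`, there is no section of
`Gal(N/F) → G_k`. -/
def NoProEllSection (ℓ : ℕ) (a : k) (f : k[X]) : Prop :=
  ∀ (F Ω : Type) [Field F] [Field Ω] [Algebra k F] [Algebra F Ω] [Algebra k Ω]
    [IsScalarTower k F Ω] [IsAlgClosure F Ω] (x y : F), Transcendental k x →
    algebraMap k F a * y ^ ℓ = aeval x f →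
    IntermediateField.adjoin k {x, y} = (⊤ : IntermediateField k F) →
    ∀ N : IntermediateField F Ω, proEllField ℓ k F Ω ≤ N → NoSplitting k F Ω N

end curves

/-- The polynomial `G(t₁, …, t_r, x) + c` over `k`, for a vector `v = (a, c, t₁, …, t_r)` of elements
of `R`. -/
noncomputable def member {R : Type} [CommRing R] (k : Type) [Field k] [Algebra R k] {r : ℕ}
    (G : (MvPolynomial (Fin r) R)[X]) (v : Fin (r + 2) → R) : k[X] :=
  (G.map (MvPolynomial.eval fun i : Fin r => v i.succ.succ) + C (v 1)).map (algebraMap R k)

/-- The vectors `v = (a, c, t₁, …, t_r)` of elements of `R` which do not have the following property: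
`a ≠ 0`, the polynomial `f = G(t₁, …, t_r, x) + c` is separable and has the degree `d` of `G` in `x`, for
all `n ≥ 1` which are not coprime to `d` the curve `a yⁿ = f(x)` over `k` has neither points nor
sections, and for all prime numbers `ℓ` which divide `d` the geometrically pro-`ℓ` fundamental group of
the curve `a y^ℓ = f(x)` has no section. -/
def Exceptional (R : Type) [CommRing R] (k : Type) [Field k] [Algebra R k] {r : ℕ}
    (G : (MvPolynomial (Fin r) R)[X]) : Set (Fin (r + 2) → R) :=
  {v | ¬ (v 0 ≠ 0 ∧ (member k G v).natDegree = G.natDegree ∧ (member k G v).Separable ∧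
    (∀ n : ℕ, 0 < n → ¬ Nat.Coprime n G.natDegree →
      NoPoint n (algebraMap R k (v 0)) (member k G v) ∧
        NoSection n (algebraMap R k (v 0)) (member k G v)) ∧
    ∀ ℓ : ℕ, ℓ.Prime → ℓ ∣ G.natDegree →
      NoProEllSection ℓ (algebraMap R k (v 0)) (member k G v))}

/-- Density zero: for every `ε > 0` there is an ideal `I` of `R` of finite index such that `E` lies
in at most `ε #(R/I)ᴺ` residue classes modulo `I`. -/
def DensityZero {R : Type} [CommRing R] {N : ℕ} (E : Set (Fin N → R)) : Prop :=
  ∀ ε : ℝ, 0 < ε → ∃ I : Ideal R, Finite (R ⧸ I) ∧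
    (Set.ncard ((fun (t : Fin N → R) i => Ideal.Quotient.mk I (t i)) '' E) : ℝ) ≤
      ε * (Nat.card (R ⧸ I) : ℝ) ^ N

lemma iSup_congr_prop {α : Type} [CompleteLattice α] {P Q : α → Prop} (h : ∀ L, P L ↔ Q L) :
    (⨆ L : {L // P L}, L.1) = ⨆ L : {L // Q L}, L.1 := by
  have h1 : P = Q := funext fun L => propext (h L)
  subst h1
  rfl

lemma proEll_eq (ℓ : ℕ) (k F Ω : Type) [Field k] [Field F] [Field Ω] [Algebra k F] [Algebra F Ω]
    [Algebra k Ω] : proEllField ℓ k F Ω = Pool.Agent.Y157.PS.geomPro ℓ k F Ω := by
  unfold proEllField Pool.Agent.Y157.PS.geomPro maxProEll Pool.Agent.Y157.PS.maxPro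
  congr 1
  refine iSup_congr_prop fun L => ?_
  constructor
  · rintro ⟨⟨h1, h2, h3⟩, h4⟩
    refine ⟨⟨h1, h2, h3⟩, fun W hW z hz hz0 => ?_⟩
    obtain ⟨t, ht, h5, h6⟩ := h4 W hW z hz hz0
    exact ⟨t, ht, div_ne_zero hz0 ((_root_.map_ne_zero _).2 ht), h5, h6⟩
  · rintro ⟨⟨h1, h2, h3⟩, h4⟩
    refine ⟨⟨h1, h2, h3⟩, fun W hW z hz hz0 => ?_⟩
    obtain ⟨t, ht, -, h5, h6⟩ := h4 W hW z hz hz0
    exact ⟨t, ht, h5, h6⟩

lemma of_fine {k : Type} [Field k] (l : ℕ) (a : k) (f : k[X])
    (h : Pool.Agent.Y157.PS.FineP l a f) (n : ℕ) (hn : l ∣ n) (hd : l ∣ f.natDegree) :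
    NoPoint n a f ∧ NoSection n a f := by
  obtain ⟨-, h1, h2, h3⟩ := h
  obtain ⟨n', rfl⟩ := hn
  refine ⟨⟨?_, ?_⟩, ?_⟩
  · rintro ⟨x, y, hxy⟩
    apply h2 x (y ^ n')
    rw [← hxy, ← pow_mul, mul_comm n' l]
  · rintro ⟨r, hr⟩
    obtain ⟨e, he⟩ := Nat.dvd_gcd (Dvd.intro n' rfl : l ∣ l * n') hd
    apply h3 (r ^ e)
    rw [← hr, ← pow_mul, mul_comm e l, he]
  · intro F Ω _ _ _ _ _ _ _ x y U hxy hU
    have hcl : IsAlgClosed Ω := IsAlgClosure.isAlgClosed F
    have halg : Algebra.IsAlgebraic F Ω := IsAlgClosure.isAlgebraic
    have h4 := h1 F Ω U hU x (y ^ n') (by rw [← hxy, ← pow_mul, mul_comm n' l])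
    exact ⟨fun s => h4.false ⟨s.toHom, s.cont, s.compat⟩⟩

/-- Let `R` be a domain of characteristic zero that is finitely generated as a ring, with fraction
field `k`; so `k` is any field finitely generated over `ℚ`.  Let `G ∈ R[t₁, …, t_r][x]` be a polynomial
whose degree `d` in `x` is at least 3.  Then for all `(a, c, t₁, …, t_r) ∈ R^(r+2)` outside a set of
density zero, `G(t₁, …, t_r, x) + c` is separable of degree `d`, and for all `n ≥ 1` which are not coprime
to `d`, the smooth projective curve with the affine
equation `a yⁿ = G(t₁, …, t_r, x) + c` has no point over `k`, and the fundamental groups of its open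
subcurves and of all smooth curves over `k` that dominate it have no sections; and for all prime
numbers `ℓ` that divide `d` the geometrically pro-`ℓ` fundamental group of the curve
`a y^ℓ = G(t₁, …, t_r, x) + c` has no section. -/
theorem result (R : Type) [CommRing R] [IsDomain R] [CharZero R] [Algebra.FiniteType ℤ R]
    (k : Type) [Field k] [Algebra R k] [IsFractionRing R k] (r : ℕ)
    (G : (MvPolynomial (Fin r) R)[X]) (hG : 3 ≤ G.natDegree) :
    DensityZero (Exceptional R k G) := by
  intro ε hε
  obtain ⟨I, hI, hle⟩ := Pool.Agent.XE31.SC.dens_fam (R := R) (k := k) G hG ε hε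
  refine ⟨I, hI, le_trans ?_ hle⟩
  have hinjk : Function.Injective (algebraMap R k) := IsFractionRing.injective R k
  have hsub : (Exceptional R k G : Set (Fin (r + 2) → R)) ⊆
      {v : Fin (r + 2) → R | ¬ Pool.Agent.XE31.SC.FamGood k G v} := by
    intro v hv hgood
    obtain ⟨h1, h2, hsep, h3⟩ := hgood
    apply hv
    have hdeg : (member k G v).natDegree = G.natDegree := by
      rw [← h2]
      exact natDegree_map_eq_of_injective hinjk _
    refine ⟨h1, hdeg, hsep, fun n hn hnd => ?_, fun ℓ hℓ hℓd => ?_⟩
    · obtain ⟨l, hl, hln, hld⟩ := Nat.Prime.not_coprime_iff_dvd.1 hnd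
      refine of_fine l _ _ (h3 l hl hld) n hln ?_
      change l ∣ (member k G v).natDegree
      rwa [hdeg]
    · intro F' Ω _ _ _ _ _ _ _ x y hx hxy hF N hN
      have hcl : IsAlgClosed Ω := IsAlgClosure.isAlgClosed F'
      have halg : Algebra.IsAlgebraic F' Ω := IsAlgClosure.isAlgebraic
      rw [proEll_eq] at hN
      exact ⟨fun s => (h3 ℓ hℓ hℓd).1 F' Ω x y hx hxy hF N hN s.toHom s.cont s.compat⟩
  exact_mod_cast Set.ncard_le_ncard (Set.image_mono hsub) (Set.toFinite _)

end Pool.Agent.Results.MP_e66f84_ag.PolynomialFamilies
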