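import Pool.Agent.XE31.SG

/-!
# The section conjecture for 100% of all superelliptic curves over all extensions of degree prime to `D`

Let `k` be any field finitely generated over `ℚ`, that is, the fraction field of a domain `R` of
characteristic zero that is finitely generated as a ring.  Let `d ≥ 3`, and for
`(a, c₀, …, c_d) ∈ R^(d+2)` consider the curves

  `X : a yⁿ = f(x)`,  `f = c₀ + c₁ x + … + c_d x^d`,

where all coefficients vary.  We prove that for all vectors `(a, c₀, …, c_d)` outside a set of density
zero, for all `n`, all `D` with `D ∣ n` such that `D ∣ d` and `D` is odd or `2`, or `2 D ∣ d`, and for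
ALL finite extensions `L` of `k` whose degree is not divisible by `D`, the curve `X_L` has no point over
`L`, and its fundamental group has no section over `G_L`, also when any set of closed points of the
curve is removed.  So `X_L`, and all smooth curves over `L` that dominate it, satisfy the section
conjecture.

In other words, for 100% of the curves the degrees of all finite extensions `L` of `k` over which
there are points or sections are divisible by `gcd(n, d)` if this number is not divisible by `4`, and
otherwise at least by the half of it (by `gcd(n, d)`, if `2 gcd(n, d)` divides `d`).  For instance for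
`n = 2` and `d = 2 g + 2`: for 100% of the hyperelliptic curves `a y² = f(x)` of genus `g ≥ 1` over `k`,
there are no points and no sections over all extensions of `k` of odd degree.

In `Pool.Agent.Results.MP_e66f84_ag.SuperellipticFamilies` only the field `L = k` is treated.

The set of the exceptional vectors has density zero in a strong sense: for every `ε > 0` there is an
ideal `I` of `R` of finite index such that the exceptional vectors lie in at most `ε #(R/I)^(d+2)`
residue classes modulo `I`.

The fundamental group is described through valuations.  Let `U` be a smooth geometrically connected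
curve over `k` with function field `F`, let `Ω` be an algebraic closure of `F`, and let `F_U` be the
maximal extension of `F` inside `Ω` which is unramified over the closed points of `U`, that is, over
their local rings, which are valuation rings of `F`.  Then `π₁(U) = Gal(F_U/F)`, and the map
`π₁(U) → G_k` is the restriction of automorphisms to the algebraic closure of `k` in `Ω`.

Proof.  There are a number field `K` and a homomorphism `P : R → K` such that for almost all primes `v`
of `K` there is an embedding `ψ : k → K_v` with `ψ(r) ≡ P(r)` modulo `v²` for all `r ∈ R`.  It induces a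
discrete valuation on `k` with finite residue field.  For almost all vectors there is such a prime `v`,
not dividing 2, for which `P(a)` has valuation one and `P(c₀) + … + P(c_d) x^d` is irreducible of degree
`d` modulo `v`.  Let `l` be a prime number with `v_l([L : k]) < v_l(D)`.  There is a discrete valuation
ring of `L` over the one of `k` with `v_l(e f) ≤ v_l([L : k])` for its ramification index `e` and its
residue degree `f`; put `ℓ = l^(1 + v_l(e))`, a divisor of `D` and so of `n` and `d`.  The valuation of
`a` is `e`, which is not divisible by `ℓ`, and the irreducible factors of the polynomial over the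
residue field of this ring have degrees divisible by `gcd(2, ℓ) ℓ`, or, if `D = 2`, at least by `2`.  For
a section over `L` the functions `(x - θ)/(x - θ')`, where `θ, θ'` are roots of the polynomial, are, by
Kummer theory, constants `c(θ, θ')` times `ℓ`-th powers of elements fixed by the section.  The values of
the `c(θ, θ')` modulo `ℓ` are additive and invariant under the decomposition group of the valuation,
which permutes the roots in cycles of lengths divisible by `gcd(2, ℓ) ℓ`, so their sum over `θ` is `0`
modulo `ℓ`; but by the equation it is the value of `a`, a contradiction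
(`Pool.Agent.TH377.LocG.local_U`).  For `D = 2` this is the local theorem of
`Pool.Agent.Results.MP_2f3286_ag.QuadraticTwists`.
-/

open Polynomial

namespace Pool.Agent.Results.MP_e66f84_ag.SuperellipticOverExtensions

universe u v w y

section definitions

variable (k : Type u) (F : Type v) (Ω : Type w) [Field k] [Field F] [Field Ω] [Algebra k F]
  [Algebra F Ω] [Algebra k Ω]

/-- The inertia group of the valuation ring `W` of `Ω`, as a subgroup of `Gal(Ω/F)`: the
automorphisms of `Ω` over `F` that map `W` onto itself and act as the identity on its residue
field. -/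
noncomputable def inertia (W : ValuationSubring Ω) : Subgroup (Ω ≃ₐ[F] Ω) :=
  (W.inertiaSubgroup F).map (W.decompositionSubgroup F).subtype

/-- `F_U`, for a set `U` of valuation rings of `F`: the elements of `Ω` fixed by the inertia groups
of all valuation rings `W` of `Ω` with `W ∩ F ∈ U`.  If `Ω` is an algebraic closure of a field `F`
of characteristic zero, this is the maximal extension of `F` in `Ω` unramified over `U`. -/
noncomputable def unramified (U : Set (ValuationSubring F)) : IntermediateField F Ω :=
  ⨅ W : {W : ValuationSubring Ω // W.comap (algebraMap F Ω) ∈ U},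
    IntermediateField.fixedField (inertia F Ω W.1)

/-- The map `τ : M → M` acts as `σ : K → K` on the elements that the fields `K` and `M` have in
common when they are regarded as subfields of `Ω` through `i` and `j`. -/
def ActsAs {K M Ω : Type*} [Field K] [Field M] [Field Ω] (i : K →+* Ω) (j : M →+* Ω) (σ : K → K)
    (τ : M → M) : Prop :=
  ∀ c z, j z = i c → j (τ z) = i (σ c)

/-- Let `k ⊆ K ⊆ Ω` and `F ⊆ M ⊆ Ω` be fields.  A splitting of `Gal(M/F) → Gal(K/k)`: a continuous
homomorphism `s` from `Gal(K/k)` to `Gal(M/F)` such that `s(σ)` acts as `σ` on the elements of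
`K ∩ M`. -/
structure Splitting (K M : Type*) [Field K] [Field M] [Algebra k K] [Algebra F M] [Algebra K Ω]
    [Algebra M Ω] where
  /-- the homomorphism `Gal(K/k) → Gal(M/F)` -/
  toHom : (K ≃ₐ[k] K) →* (M ≃ₐ[F] M)
  cont : Continuous toHom
  compat : ∀ σ : K ≃ₐ[k] K, ActsAs (algebraMap K Ω) (algebraMap M Ω) σ (toHom σ)

/-- The sections of `π₁(U) = Gal(F_U/F) → G_k`: the continuous homomorphisms `s` from
`G_k = Gal(k̄/k)` to `Gal(F_U/F)`, where `k̄` is the algebraic closure of `k` in `Ω`, such that
`s(σ)` acts as `σ` on the elements of `k̄`. -/
def GaloisSection (U : Set (ValuationSubring F)) : Type w :=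
  Splitting k F Ω (algebraicClosure k Ω) (unramified F Ω U)

end definitions

/-- The smooth projective curve with the affine equation `a yⁿ = f(x)` has no point over `k`:
neither in the affine part nor at infinity. -/
def NoPoint {k : Type u} [Field k] (n : ℕ) (a : k) (f : k[X]) : Prop :=
  (¬ ∃ x y : k, a * y ^ n = f.eval x) ∧
    ¬ ∃ r : k, a * r ^ Nat.gcd n f.natDegree = f.leadingCoeff

/-- Let `F` be any field over `k` that contains a point `(x, y)` of the curve `a yⁿ = f(x)`, for
instance the function field of the curve, and let `Ω` be an algebraic closure of `F`.  Then for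
every set `U` of valuation rings of `F` over `k` there is no section of `π₁(U) → G_k`.  If `F` is the
function field of the curve, such `U` are given by the smooth projective curve and by all its open
subcurves. -/
def NoSection {k : Type u} [Field k] (n : ℕ) (a : k) (f : k[X]) : Prop :=
  ∀ (F : Type v) (Ω : Type w) [Field F] [Field Ω] [Algebra k F] [Algebra F Ω] [Algebra k Ω]
    [IsScalarTower k F Ω] [IsAlgClosure F Ω] (x y : F) (U : Set (ValuationSubring F)),
    algebraMap k F a * y ^ n = aeval x f → (∀ O ∈ U, ∀ c : k, algebraMap k F c ∈ O) →
      IsEmpty (GaloisSection k F Ω U)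

/-- The polynomial `c₁ + c₂ x + … + c_{d+1} x^d` over `k`, for a vector `(c₀, …, c_{d+1})` of elements
of `R`. -/
noncomputable def poly {R : Type} [CommRing R] (k : Type) [Field k] [Algebra R k] {d : ℕ}
    (c : Fin (d + 2) → R) : k[X] :=
  ∑ i : Fin (d + 1), C (algebraMap R k (c i.succ)) * X ^ (i : ℕ)

/-- For all finite extensions `L` of `k` whose degree is not divisible by `D`, the curve
`a yⁿ = f(x)` has no points over `L` and no sections over `G_L`. -/
def NothingOver {k : Type} [Field k] (D n : ℕ) (a : k) (f : k[X]) : Prop :=
  ∀ (L : Type y) [Field L] [Algebra k L] [FiniteDimensional k L], ¬ D ∣ Module.finrank k L →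
    NoPoint n (algebraMap k L a) (f.map (algebraMap k L)) ∧
      NoSection.{y, v, w} n (algebraMap k L a) (f.map (algebraMap k L))

/-- The vectors `c = (a, c₀, …, c_d)` of elements of `R` that do not have the following property:
`a ≠ 0`, the polynomial `f = c₀ + … + c_d x^d` is irreducible of degree `d` over `k`, and for all `n`
and all divisors `D` of `n` such that `D ∣ d` and `D` is odd or `2`, or `2 D ∣ d`, the curve `a yⁿ = f(x)`
has no point and no section over all finite extensions of `k` whose degree is not divisible
by `D`. -/
def Exceptional (R : Type) [CommRing R] (k : Type) [Field k] [Algebra R k] (d : ℕ) :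
    Set (Fin (d + 2) → R) :=
  {c | ¬ (algebraMap R k (c 0) ≠ 0 ∧ (poly k c).natDegree = d ∧ Irreducible (poly k c) ∧
    ∀ n D : ℕ, D ∣ n → (D ∣ d ∧ (Odd D ∨ D = 2) ∨ 2 * D ∣ d) →
      NothingOver.{v, w, y} D n (algebraMap R k (c 0)) (poly k c))}

/-- Density zero: for every `ε > 0` there is an ideal `I` of `R` of finite index such that `E` lies
in at most `ε #(R/I)ᴺ` residue classes modulo `I`. -/
def DensityZero {R : Type} [CommRing R] {N : ℕ} (E : Set (Fin N → R)) : Prop :=
  ∀ ε : ℝ, 0 < ε → ∃ I : Ideal R, Finite (R ⧸ I) ∧
    (Set.ncard ((fun (t : Fin N → R) i => Ideal.Quotient.mk I (t i)) '' E) : ℝ) ≤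
      ε * (Nat.card (R ⧸ I) : ℝ) ^ N

section proof

open Pool.Agent.XE31.SC

lemma toSec {k : Type u} {F : Type v} {Ω : Type w} [Field k] [Field F] [Field Ω] [Algebra k F]
    [Algebra F Ω] [Algebra k Ω] (U : Set (ValuationSubring F))
    (h : IsEmpty (Pool.Agent.W620.SC.GSection k F Ω U)) : IsEmpty (GaloisSection k F Ω U) :=
  ⟨fun s => h.false ⟨s.toHom, s.cont, s.compat⟩⟩

lemma of_fineN {k : Type u} [Field k] (n : ℕ) (a : k) (f : k[X]) (h : FineN.{u, v, w} n a f) :
    NoPoint n a f ∧ NoSection.{u, v, w} n a f := by
  obtain ⟨h1, h2, h3⟩ := h
  refine ⟨⟨?_, ?_⟩, ?_⟩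
  · rintro ⟨x, y, hxy⟩
    exact h2 x y hxy
  · rintro ⟨r, hr⟩
    exact h3 r hr
  · intro F Ω _ _ _ _ _ _ _ x y U hxy hU
    have hcl : IsAlgClosed Ω := IsAlgClosure.isAlgClosed F
    have halg : Algebra.IsAlgebraic F Ω := IsAlgClosure.isAlgebraic
    exact toSec U (h1 F Ω U hU x y hxy)

end proof

/-- Let `R` be a domain of characteristic zero that is finitely generated as a ring, with fraction
field `k`; so `k` is any field finitely generated over `ℚ`.  Let `d ≥ 3`.  For all vectors
`(a, c₀, …, c_d)` of elements of `R` outside a set of density zero, the polynomial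
`f = c₀ + … + c_d x^d` is irreducible of degree `d` over `k`, and for all `n` and all divisors `D` of `n`
such that `D ∣ d` and `D` is odd or `2`, or `2 D ∣ d`, and for all finite extensions `L` of `k` whose
degree is not divisible by `D`, the smooth projective curve with the affine equation `a yⁿ = f(x)` has no
point over `L`, and the fundamental groups of its open subcurves over `L` and of all smooth curves over
`L` that dominate it have no sections over `G_L`. -/
theorem result (R : Type) [CommRing R] [IsDomain R] [CharZero R] [Algebra.FiniteType ℤ R]
    (k : Type) [Field k] [Algebra R k] [IsFractionRing R k] (d : ℕ) (hd : 3 ≤ d) :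
    DensityZero (Exceptional.{v, w, y} R k d) := by
  intro ε hε
  have hcz : CharZero k := charZero_of_injective_algebraMap (IsFractionRing.injective R k)
  obtain ⟨I, hI, hle⟩ := Pool.Agent.XE31.SC.dens_dvr (R := R) (k := k) d hd ε hε
  refine ⟨I, hI, le_trans ?_ hle⟩
  have hsub : (Exceptional.{v, w, y} R k d : Set (Fin (d + 2) → R)) ⊆
      {c : Fin (d + 2) → R | ¬ Pool.Agent.XE31.SC.DvrGood k c} := by
    intro c hc hgood
    obtain ⟨h1, ⟨Z⟩⟩ := hgood
    apply hc
    have hdeg : (poly k c).natDegree = d := h1
    refine ⟨Z.ne_zero, hdeg, Z.irr, fun n D hDn hDd L _ _ _ hL => ?_⟩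
    exact of_fineN _ _ _ (Z.fineN (h1.symm ▸ hd) L D n hDn (h1.symm ▸ hDd) hL)
  exact_mod_cast Set.ncard_le_ncard (Set.image_mono hsub) (Set.toFinite _)

end Pool.Agent.Results.MP_e66f84_ag.SuperellipticOverExtensions
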