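import Mathlib
import Pool.Agent.H30S.Done

/-!
# The section conjecture in thin families of quadratic twists: products of prime numbers and iterated densities

Let `g` be a polynomial with integral coefficients which is irreducible over `ℚ`, of even degree `n ≥ 6`, such that
the curve `y ^ 2 = g(x)` is everywhere locally soluble; its genus is `n / 2 - 1 ≥ 2`. (Nothing is assumed about the
Galois group. Replacing `g` by a multiple one can start from any everywhere locally soluble twist.) For `E ≠ 0` let
`C_E : y ^ 2 = E g(x)`. The twist `C_E` is called `Empty` here if it is everywhere locally soluble, but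

* it has no rational point,
* the fundamental groups of `C_E`, of its open subcurves and of all smooth curves over `ℚ` which dominate it have no
  sections over `G_ℚ`,
* its fake 2-Selmer set is empty.

So the section conjecture holds for `C_E`: both sides of the Kummer map are empty, although there are sections over all
completions of `ℚ`.

Theorem. Let `T ≥ 1`.

(1) For some `δ > 0` at least `X / (log X) ^ (1 - δ)` of the squarefree `E ≤ X` with `E = 1` modulo `T` have this
property.

(2) There are a multiple `W` of `T` and constants `C` and `κ < 1` such that the set `S` of the primes `q = 1` modulo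
`W` modulo which `g` has a zero has the following properties. It has positive density. For every finite subset
`F` of `S` the twist by `E = ∏ F` is everywhere locally soluble, and for a prime `q = 1` modulo `W`, `q ∉ F`, the twist by
`E q` is everywhere locally soluble if and only if `q ∈ S`. The relative upper density of the `q` in `S` for which
`C_{E q}` does not have the property is at most `C (4 n / 2 ^ n) ^ t`, `t` the number of the `p` in `F` modulo
which `g` splits completely. The iterated upper density of the `(q_0, …, q_k)` for which the twist by `E q_0 ⋯ q_k` does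
not have the property is at most `C κ ^ k (4 n / 2 ^ n) ^ t`.

So for every `ε > 0` there is a finite set `F_ε` such that for EVERY finite `F` with `F_ε ⊆ F ⊆ S` the section
conjecture holds, non-trivially, for all but a proportion `ε` of the curves `y ^ 2 = E q g(x)`, `E = ∏ F`, `q` a prime in
`S`.

Relation to earlier work: helper files of the starting library (`Pool/Agent/Q161/SX`) prove that 100 percent of the
everywhere locally soluble twists by squarefree `D`, `|D| ≤ X`, have no sections, by the large sieve in the number field
`ℚ(θ)`; this says nothing about families of `O(X / log X)` twists like the `E q`, `q` prime, and it is not effective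
in the direction of a single pencil of twists. The analysis of a section at the primes (helper161, helper623) is used
here, too.

Proof. `L = ℚ(θ)`, `g(θ) = 0`. A section `s` of `C_D`, `D` squarefree, gives for every prime `l ∣ D` outside a finite set a prime
`v0(l)` of degree one of `L` above `l`, and up to finitely many types it is given by an integer `α` of `L` with divisor
`∏ v0(l)` outside the finite set and with small conjugates; two elements `α, α'` of the same type with the same `v0(l)`
differ by a rational integer times a square modulo the other primes above `l` (starting library). By the size of the conjugates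
`N(α) = D m`, `m` in a finite set. Let `A_i`, `i < r`, be elements of `L` whose norm is a square, which are squares at the bad
places, have even valuations at the primes not above `F`, and are independent modulo squares of `L(ζ_W)`, with
`2 ^ r ≥ c ∏_{p ∈ F} 2 ^ (c_p - 1)`, `c_p` the number of the primes of `L` above `p`. For two twists `D = E q R`, `D' = E q' R'`
with sections of the same type, the same `v0(p)` for `p ∈ F` and the same classes of `q R`, `q' R'` modulo squares at `p ∈ F`, the
corestriction of the quaternion algebra `(α α', A_i)` is trivial outside `q` and `q'` (`R` and `R'` are products of primes modulo which all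
`A_i` are squares), so by the product formula the vectors of the Legendre symbols of the `A_i` at `v0(q)` and `v0(q')` are
equal. So all these vectors lie in a set of at most `K ∏_{p ∈ F} 2 k_p` elements, `k_p` the number of the zeros of `g` modulo `p`, and
Chebotarev's theorem bounds the proportion of the `q` by `n K ∏ 2 k_p / 2 ^ r`. The weights `4 k_p / 2 ^ (c_p)` are at most `1`,
and their mean `κ` over `S` is less than `1` as `n ≥ 6`.

(helper30, with helper3, helper11, helper14, helper23, helper36, helper46, helper71, helper81, helper94 for this part and, for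
the library `H30Q`, helper4, helper12, helper21, helper29, helper33, helper50, helper52, helper58, helper62, helper63, helper66,
helper72, helper75, helper85, helper86, helper88.)
-/

set_option autoImplicit false

open Polynomial Filter Topology
open scoped Classical

namespace Pool.Agent.Results.MP_e66f84_ag.ThinTwistFamilies

section sections

variable (k F Ω : Type) [Field k] [Field F] [Field Ω] [Algebra k F] [Algebra F Ω] [Algebra k Ω]

/-- The inertia group of the valuation ring `W` of `Ω`, as a subgroup of `Gal(Ω/F)`: the
automorphisms of `Ω` over `F` that map `W` onto itself and act as the identity on its residue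
field. -/
noncomputable def inertia (W : ValuationSubring Ω) : Subgroup (Ω ≃ₐ[F] Ω) :=
  (W.inertiaSubgroup F).map (W.decompositionSubgroup F).subtype

/-- `F_U`, for a set `U` of valuation rings of `F`: the elements of `Ω` fixed by the inertia groups
of all valuation rings `W` of `Ω` with `W ∩ F ∈ U`.  If `Ω` is an algebraic closure of a field `F`
of characteristic zero, this is the maximal extension of `F` in `Ω` unramified over `U`. -/
noncomputable def unramified (U : Set (ValuationSubring F)) : IntermediateField F Ω :=
  ⨅ W : {W : ValuationSubring Ω // W.comap (algebraMap F Ω) ∈ U},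
    IntermediateField.fixedField (inertia F Ω W.1)

/-- The map `τ : M → M` acts as `σ : K → K` on the elements that the fields `K` and `M` have in
common when they are regarded as subfields of `Ω` through `i` and `j`. -/
def ActsAs {K M Ω : Type} [Field K] [Field M] [Field Ω] (i : K →+* Ω) (j : M →+* Ω) (σ : K → K)
    (τ : M → M) : Prop :=
  ∀ c z, j z = i c → j (τ z) = i (σ c)

/-- Let `k ⊆ K ⊆ Ω` and `F ⊆ N ⊆ Ω` be fields.  A splitting of `Gal(N/F) → Gal(K/k)`: a continuous
homomorphism `s` from `Gal(K/k)` to `Gal(N/F)` such that `s(σ)` acts as `σ` on the elements of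
`K ∩ N`. -/
structure Splitting (K N : Type) [Field K] [Field N] [Algebra k K] [Algebra F N] [Algebra K Ω]
    [Algebra N Ω] where
  /-- the homomorphism `Gal(K/k) → Gal(N/F)` -/
  toHom : (K ≃ₐ[k] K) →* (N ≃ₐ[F] N)
  cont : Continuous toHom
  compat : ∀ σ : K ≃ₐ[k] K, ActsAs (algebraMap K Ω) (algebraMap N Ω) σ (toHom σ)

/-- There are no sections of `Gal(N/F) → G_k`, where `G_k = Gal(k̄/k)` and `k̄` is the algebraic
closure of `k` in `Ω`.  For `N = F_U` these are the sections of `π₁(U) → G_k`. -/
def NoSplitting (N : IntermediateField F Ω) : Prop :=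
  IsEmpty (Splitting k F Ω (algebraicClosure k Ω) N)

end sections

section curves

/-- Let `F` be any field over `ℚ` that contains a point `(x, y)` of the affine curve `y ^ 2 = E g(x)`, for instance
the function field over `ℚ` of `C_E`, and let `Ω` be an algebraic closure of `F`.  Then for every set `U` of valuation
rings of `F` over `ℚ` there is no section of `π₁(U) → G_ℚ`.  If `F` is the function field of the curve, such `U` are
given by `C_E` and by all its open subcurves. -/
def NoSection (g : ℤ[X]) (E : ℤ) : Prop :=
  ∀ (F Ω : Type) [Field F] [Field Ω] [Algebra ℚ F] [Algebra F Ω] [Algebra ℚ Ω]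
    [IsScalarTower ℚ F Ω] [IsAlgClosure F Ω] (x y : F) (U : Set (ValuationSubring F)),
    y ^ 2 = (E : F) * aeval x g → (∀ O ∈ U, ∀ c : ℚ, algebraMap ℚ F c ∈ O) →
      NoSplitting ℚ F Ω (unramified F Ω U)

/-- The curve `y ^ 2 = E g(x)` has a point with `y ≠ 0` over the field `K`. (For `K = ℚ_p`, `ℝ` and a separable `g`
this is so if and only if the smooth projective model has a point over `K`.) -/
def HasPoint (K : Type) [Field K] (g : ℤ[X]) (E : ℤ) : Prop :=
  ∃ x y : K, y ≠ 0 ∧ y ^ 2 = (E : K) * (g.map (Int.castRingHom K)).eval x

/-- The curve `y ^ 2 = E g(x)` is everywhere locally soluble. -/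
def Soluble (g : ℤ[X]) (E : ℤ) : Prop :=
  (∀ (p : ℕ) [Fact p.Prime], HasPoint ℚ_[p] g E) ∧ HasPoint ℝ g E

/-- `θ` is the image of `X` in the algebra `K[X]/(g)`. Up to squares and up to a constant `u` the element `h(θ)` of
this algebra is equal to `x - θ` for a point `(x, y)`, `y ≠ 0`, of `y ^ 2 = E g(x)` over `K`. -/
def InImage (K : Type) [Field K] (g : ℤ[X]) (E : ℤ) (h : K[X]) : Prop :=
  ∃ (x y u : K) (s : K[X]), y ≠ 0 ∧ u ≠ 0 ∧ y ^ 2 = (E : K) * (g.map (Int.castRingHom K)).eval x ∧
    g.map (Int.castRingHom K) ∣ (C x - X) - C u * h * s ^ 2

/-- The fake 2-Selmer set of `y ^ 2 = E g(x)` is not empty: some invertible element `h(θ)` of `ℚ[X]/(g)` is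
everywhere locally in the image of the descent map. -/
def HasSelmerElement (g : ℤ[X]) (E : ℤ) : Prop :=
  ∃ h : ℚ[X], IsCoprime h (g.map (Int.castRingHom ℚ)) ∧
    (∀ (p : ℕ) [Fact p.Prime], InImage ℚ_[p] g E (h.map (Rat.castHom ℚ_[p]))) ∧
    InImage ℝ g E (h.map (Rat.castHom ℝ))

/-- The curve `C_E : y ^ 2 = E g(x)` (`g` of even degree) is everywhere locally soluble, but it has no rational points,
neither affine ones nor at infinity, there are no sections over `G_ℚ` of the fundamental groups of `C_E`, of its open
subcurves and of the curves which dominate it, and its fake 2-Selmer set is empty. -/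
structure Empty (g : ℤ[X]) (E : ℤ) : Prop where
  soluble : Soluble g E
  noSection : NoSection g E
  noAffinePoint : ¬ ∃ x y : ℚ, y ^ 2 = (E : ℚ) * (g.map (Int.castRingHom ℚ)).eval x
  noPointAtInfinity : ¬ IsSquare (E * g.leadingCoeff)
  noSelmerElement : ¬ HasSelmerElement g E

/-- The primes `q = 1` modulo `W` modulo which `g` has a zero. -/
def rootPrimes (g : ℤ[X]) (W : ℕ) : Set ℕ :=
  {q | q.Prime ∧ q % W = 1 % W ∧ ∃ e : ℤ, (q : ℤ) ∣ g.eval e}

/-- The elements of `S` up to `x`. -/
noncomputable def upTo (S : Set ℕ) (x : ℕ) : Finset ℕ := (Finset.range (x + 1)).filter fun q => q ∈ S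

/-- The mean of `G` on the elements of `S` up to `x`. -/
noncomputable def average (S : Set ℕ) (G : ℕ → ℝ) (x : ℕ) : ℝ :=
  (∑ q ∈ upTo S x, G q) / (upTo S x).card

/-- The iterated upper mean of the function `G` of finite sets: `k` elements of `S` are added to `F`, one after the
other, and the upper limits of the means over these elements are taken, first for the last one. -/
noncomputable def iteratedUpperMean (S : Set ℕ) (G : Finset ℕ → ℝ) : ℕ → Finset ℕ → ℝ
  | 0, F => G F
  | k + 1, F => limsup (fun x => average S (fun q => iteratedUpperMean S G k (insert q F)) x) atTop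

/-- `0` if the twist by the product of the elements of `F` has the property `Empty`, `1` if it does not. -/
noncomputable def defect (g : ℤ[X]) (F : Finset ℕ) : ℝ :=
  if Empty g (∏ p ∈ F, (p : ℤ)) then 0 else 1

/-- The number of the elements of `F` modulo which `g` has `deg g` zeros. -/
noncomputable def numSplit (g : ℤ[X]) (F : Finset ℕ) : ℕ :=
  (F.filter fun p => ((Finset.range p).filter fun c : ℕ => (p : ℤ) ∣ g.eval (c : ℤ)).card =
    g.natDegree).card

end curves

lemma noSplitting_of {k F Ω : Type} [Field k] [Field F] [Field Ω] [Algebra k F] [Algebra F Ω]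
    [Algebra k Ω] {U : Set (ValuationSubring F)}
    (h : Pool.Agent.W620.SC.GSection k F Ω U → False) : NoSplitting k F Ω (unramified F Ω U) :=
  ⟨fun s => h ⟨s.toHom, s.cont, s.compat⟩⟩

lemma empty_of {g : ℤ[X]} {E : ℤ} (hev : Even g.natDegree) (hE : E ≠ 0)
    (h : Pool.Agent.H30S.VioS g E) : Empty g E := by
  refine ⟨h.vio.soluble, ?_, h.vio.noPoint, h.vio.noPointInf, h.vio.noSelmer⟩
  intro F Ω _ _ _ _ _ _ _ x y U hxy hU
  have hcl : IsAlgClosed Ω := IsAlgClosure.isAlgClosed F
  have halg : Algebra.IsAlgebraic F Ω := IsAlgClosure.isAlgebraic
  exact noSplitting_of fun G => Pool.Agent.H30S.noSec hev hE h x y U hxy hU G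

lemma iterated_eq (S : Set ℕ) (G : Finset ℕ → ℝ) (k : ℕ) (F : Finset ℕ) :
    iteratedUpperMean S G k F = Pool.Agent.H30Q.It S G k F := by
  induction k generalizing F with
  | zero => rfl
  | succ k ih =>
    show limsup (fun x => average S (fun q => iteratedUpperMean S G k (insert q F)) x) atTop =
      limsup (fun x => Pool.Agent.H30Q.avg S (fun q => Pool.Agent.H30Q.It S G k (insert q F)) x) atTop
    simp only [ih]
    rfl

/-- Let `g ∈ ℤ[X]` be irreducible over `ℚ`, of even degree `n ≥ 6`, and let `y ^ 2 = g(x)` be everywhere locally
soluble. (1) At least `X / (log X) ^ (1 - δ)` of the twists by squarefree `E ≤ X`, `E = 1` modulo `T`, are everywhere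
locally soluble, but have no points and no sections. (2) For suitable `W`, `T ∣ W`, and `C`, `κ < 1`: the set `S` of the
primes `q = 1` modulo `W` modulo which `g` has a zero has positive lower density, the twists by products of its
elements are everywhere locally soluble, and, among the primes `q = 1` modulo `W`, exactly its elements lead to everywhere
locally soluble twists; for every finite subset `F` of `S` the iterated upper density of the `k + 1` primes in `S`
which, together with `F`, give twists which do not have the property `Empty` is at most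
`C κ ^ k (4 n / 2 ^ n) ^ t`, `t` the number of the elements of `F` modulo which `g` splits completely. -/
theorem result (g : ℤ[X]) (hirr : Irreducible (g.map (Int.castRingHom ℚ))) (heven : Even g.natDegree)
    (h6 : 6 ≤ g.natDegree) (hsol : Soluble g 1) (T : ℕ) (hT : T ≠ 0) :
    (∃ δ : ℝ, 0 < δ ∧ ∀ᶠ X : ℕ in atTop, (X : ℝ) / Real.log X ^ (1 - δ) ≤
      (((Finset.range (X + 1)).filter fun E : ℕ =>
        Squarefree E ∧ E % T = 1 % T ∧ Empty g (E : ℤ)).card : ℝ)) ∧
    ∃ (W : ℕ) (C κ : ℝ), W ≠ 0 ∧ T ∣ W ∧ 0 < C ∧ 0 ≤ κ ∧ κ < 1 ∧
      (∃ c : ℝ, 0 < c ∧ ∀ᶠ x : ℕ in atTop,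
        c * (Nat.primeCounting x : ℝ) ≤ (upTo (rootPrimes g W) x).card) ∧
      (∀ F : Finset ℕ, (∀ p ∈ F, p ∈ rootPrimes g W) → Soluble g (∏ p ∈ F, (p : ℤ))) ∧
      (∀ F : Finset ℕ, (∀ p ∈ F, p ∈ rootPrimes g W) → ∀ q : ℕ, q.Prime → q % W = 1 % W → q ∉ F →
        (Soluble g (∏ p ∈ insert q F, (p : ℤ)) ↔ q ∈ rootPrimes g W)) ∧
      ∀ (k : ℕ) (F : Finset ℕ), (∀ p ∈ F, p ∈ rootPrimes g W) →
        iteratedUpperMean (rootPrimes g W) (defect g) (k + 1) F ≤
          C * κ ^ k * (4 * g.natDegree / 2 ^ g.natDegree) ^ numSplit g F := by
  obtain ⟨⟨δ, hδ, h⟩, W, C, κ, h1, h2, h3, h4, h5, h7, h8, h9, h10⟩ :=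
    Pool.Agent.H30S.fin g hirr heven h6 hsol T hT
  constructor
  · refine ⟨δ, hδ, ?_⟩
    filter_upwards [h] with X hX
    refine hX.trans ?_
    exact_mod_cast Finset.card_le_card (by
      intro E hE
      obtain ⟨e1, e2, e3, e4⟩ := Finset.mem_filter.1 hE
      exact Finset.mem_filter.2 ⟨e1, e2, e3,
        empty_of heven (by exact_mod_cast e2.ne_zero) e4⟩)
  · refine ⟨W, C, κ, h1, h2, h3, h4, h5, h7, h8, h9, fun k F hF => ?_⟩
    rw [iterated_eq]
    refine le_trans ?_ (h10 k F hF)
    refine Pool.Agent.H30Q.It_mono (fun F => ?_) (fun F => ?_) ?_ (k + 1) F (Or.inr (Nat.succ_pos k)) hF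
    · unfold defect
      split_ifs <;> norm_num
    · split_ifs <;> norm_num
    · intro F hFne hFS
      by_cases hf : Pool.Agent.H30S.VioS g (∏ p ∈ F, (p : ℤ))
      · have hne : (∏ p ∈ F, (p : ℤ)) ≠ 0 :=
          Finset.prod_ne_zero_iff.2 fun p hp => by exact_mod_cast (hFS p hp).1.ne_zero
        unfold defect
        rw [if_pos hf, if_pos (empty_of heven hne hf)]
      · rw [if_neg hf]
        unfold defect
        split_ifs <;> norm_num

end Pool.Agent.Results.MP_e66f84_ag.ThinTwistFamilies
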